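import Pool.Agent.H668.Ene.Tubes

/-!
# MP_850839_an: tubes whose axes have large additive energy

Write `n = d + 1` and points of `ℝ^n` as `(t, y)`, `t ∈ ℝ`, `y ∈ ℝ^d`.  A line of direction `e` with
`e 0 ≠ 0` is the set of all `(t, p + t v)` with the slope `v = e' / e 0` and the foot `p`, so the lines
form a set of pairs `(v, p) ∈ ℝ^(2d)`.  The additive energy of a family of `m` lines, at scale `δ`,
is the number of quadruples of lines with `|v₁ + v₂ - v₃ - v₄| ≤ δ` and `|p₁ + p₂ - p₃ - p₄| ≤ δ`; it
is at most about `m³`.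

For every `η > 0` there are `γ > 0` and `c > 0` such that every family of `m` tubes with `δ`-separated
orientations, with centres at heights between `-1` and `1` and with axes of additive energy at least
`δ^γ m³`, has a union of volume at least `c δ^η (δ^(n-1) m)`.  So the tubes are essentially disjoint,
as the conjecture predicts, and every counterexample to this consequence of the conjecture has axes
of additive energy smaller than `m³` by a fixed power of `δ`.

The proof.  By the theorem of Balog, Szemerédi and Gowers a large part of the family has small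
doubling in `ℝ^(2d)`.  For a homomorphism `π` one has `|π(G) + π(G)| |G| ≤ |G + G - G| |π(G)|`, so the
sets of the positions at every height have small doubling, with losses `δ^(-O(γ))`, and for such
families the counting of differences along many slopes is effective.
-/

set_option autoImplicit false

open MeasureTheory

namespace Pool.Agent.Results.MP_850839_an.LargeEnergy

/-- The `δ`-tube with centre `a` and direction `e` (a unit vector): the closed cylinder of length
`1` and radius `δ` around the segment with centre `a` and direction `e`. -/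
def tube {n : ℕ} (δ : ℝ) (a e : EuclideanSpace ℝ (Fin n)) : Set (EuclideanSpace ℝ (Fin n)) :=
  {y | |inner ℝ (y - a) e| ≤ 1 / 2 ∧ ‖(y - a) - (inner ℝ (y - a) e) • e‖ ≤ δ}

/-- The slope `v = e' / e 0 ∈ ℝ^d` of the lines of direction `e`. -/
noncomputable def slope {d : ℕ} (e : EuclideanSpace ℝ (Fin (d + 1))) : Fin d → ℝ :=
  fun k => e k.succ / e 0

/-- The foot `p ∈ ℝ^d` of the line through `a` of direction `e`: the line consists of the points
`(t, p + t v)`, where `v` is the slope. -/
noncomputable def foot {d : ℕ} (a e : EuclideanSpace ℝ (Fin (d + 1))) : Fin d → ℝ :=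
  fun k => a k.succ - a 0 * (e k.succ / e 0)

/-- The quadruples `(i, j, k, l)` of lines of the family for which the slopes and the feet satisfy
`v_i + v_j = v_k + v_l` and `p_i + p_j = p_k + p_l`, up to `δ` in each coordinate. -/
def quadruples {d : ℕ} {ι : Type} (δ : ℝ) (a e : ι → EuclideanSpace ℝ (Fin (d + 1))) :
    Set (ι × ι × ι × ι) :=
  {q | ∀ k : Fin d,
    |slope (e q.1) k + slope (e q.2.1) k - slope (e q.2.2.1) k - slope (e q.2.2.2) k| ≤ δ ∧
    |foot (a q.1) (e q.1) k + foot (a q.2.1) (e q.2.1) k - foot (a q.2.2.1) (e q.2.2.1) k -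
      foot (a q.2.2.2) (e q.2.2.2) k| ≤ δ}

/-- The additive energy, at scale `δ`, of the axes of a family of tubes. -/
noncomputable def energy {d : ℕ} {ι : Type} (δ : ℝ) (a e : ι → EuclideanSpace ℝ (Fin (d + 1))) : ℕ :=
  (quadruples δ a e).ncard

/-- **Tubes whose axes have large additive energy are essentially disjoint.**  Here `n = d + 1`; the
directions satisfy `c₀ ≤ e 0` for a fixed `c₀ > 0`, so the slopes are bounded. -/
theorem result (d : ℕ) (c₀ : ℝ) (hc₀ : 0 < c₀) (η : ℝ) (hη : 0 < η) :
    ∃ γ c : ℝ, 0 < γ ∧ 0 < c ∧ ∀ (δ : ℝ), 0 < δ → δ < 1 → ∀ (ι : Type) [Fintype ι]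
      (a e : ι → EuclideanSpace ℝ (Fin (d + 1))), (∀ i, ‖e i‖ = 1) → (∀ i, c₀ ≤ e i 0) →
      (∀ i, |a i 0| ≤ 1) → (∀ i j, i ≠ j → δ ≤ ‖e i - e j‖) →
      δ ^ γ * (Fintype.card ι : ℝ) ^ 3 ≤ (energy δ a e : ℝ) →
      ENNReal.ofReal (c * δ ^ η * (δ ^ d * (Fintype.card ι : ℝ))) ≤
        volume (⋃ i, tube δ (a i) (e i)) := by
  obtain ⟨γ, c, hγ, hc, h⟩ := Pool.Agent.H668.Ene.tubes_energy d c₀ hc₀ η hη
  exact ⟨γ, c, hγ, hc, fun δ hδ hδ1 ι _ a e he he0 ha hsep hE =>
    h δ hδ hδ1 ι a e he he0 ha hsep hE⟩

end Pool.Agent.Results.MP_850839_an.LargeEnergy
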