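import Pool.Agent.H668.Lat.Dual

/-!
# MP_850839_an: tubes whose directions lie near a lattice net of mesh at least `√δ`

Write `n = d + 1` and represent directions of `ℝ^n` making an angle of at most about `45°` with the
first axis as the directions of the vectors `(1, v)`, `v ∈ [-1, 1]^d`.  Let `Λ = w₀ + M ℤ^d` be any
translate of a lattice of `ℝ^d` given by a linear map `M` with `‖M x‖ ≥ √δ ‖x‖` for all `x ∈ ℝ^d`; the
norm is the maximum norm.  So the mesh of `Λ` is at least `√δ`, and `Λ` may be as anisotropic and as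
skew as one likes.

For all families of `δ`-tubes with `δ`-separated orientations, all within `δ` of the directions of
`(1, v)`, `v ∈ Λ ∩ [-1, 1]^d` (or of their opposites), and with arbitrary positions, the inequality of
the problem holds for all exponents `q ≥ n / (n - 1)`, the endpoint included (at which it is false for
general families), with one constant for all `q`, all `δ` and all lattices.

The tubes are compared with lines over a field with `p` elements, `p` a prime of size about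
`1 / √δ`: at the heights `θ + j / p` the axes pass through the cells of a lattice at exactly the points
of an integer line, and lines over the finite field satisfy the Kakeya maximal inequality.
-/

set_option autoImplicit false

open MeasureTheory

namespace Pool.Agent.Results.MP_850839_an.LatticeNets

/-- The `δ`-tube with centre `a` and direction `e` (a unit vector): the closed cylinder of length
`1` and radius `δ` around the segment with centre `a` and direction `e`. -/
def tube {n : ℕ} (δ : ℝ) (a e : EuclideanSpace ℝ (Fin n)) : Set (EuclideanSpace ℝ (Fin n)) :=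
  {y | |inner ℝ (y - a) e| ≤ 1 / 2 ∧ ‖(y - a) - (inner ℝ (y - a) e) • e‖ ≤ δ}

/-- The vector `(1, v)` of `ℝ^(d+1)`. -/
noncomputable def vec {d : ℕ} (v : Fin d → ℝ) : EuclideanSpace ℝ (Fin (d + 1)) :=
  WithLp.toLp 2 (Fin.cons 1 v)

/-- The direction of `(1, v)`, a unit vector. -/
noncomputable def direction {d : ℕ} (v : Fin d → ℝ) : EuclideanSpace ℝ (Fin (d + 1)) :=
  ‖vec v‖⁻¹ • vec v

/-- The mesh of the lattice `M ℤ^d` is at least `ρ`, in the form `ρ ‖x‖ ≤ ‖M x‖` for all
`x ∈ ℝ^d` (maximum norm). -/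
def MeshAtLeast {d : ℕ} (ρ : ℝ) (M : (Fin d → ℝ) →ₗ[ℝ] (Fin d → ℝ)) : Prop :=
  ∀ x : Fin d → ℝ, ρ * ‖x‖ ≤ ‖M x‖

/-- `e` is at distance at most `δ` from the direction of `(1, v)`, or from its opposite, for some
`v ∈ w₀ + M ℤ^d` with all coordinates in `[-1, 1]`. -/
def NearNet {d : ℕ} (δ : ℝ) (M : (Fin d → ℝ) →ₗ[ℝ] (Fin d → ℝ)) (w₀ : Fin d → ℝ)
    (e : EuclideanSpace ℝ (Fin (d + 1))) : Prop :=
  ∃ k : Fin d → ℤ, ‖w₀ + M fun l => (k l : ℝ)‖ ≤ 1 ∧
    (‖e - direction (w₀ + M fun l => (k l : ℝ))‖ ≤ δ ∨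
      ‖e + direction (w₀ + M fun l => (k l : ℝ))‖ ≤ δ)

/-- **Tubes in the directions of a lattice net.**  Here `n = d + 1`. -/
theorem result (d : ℕ) (hd : 1 ≤ d) :
    ∃ C : ℝ, 0 < C ∧ ∀ q : ℝ, 1 + 1 / (d : ℝ) ≤ q → ∀ δ : ℝ, 0 < δ → δ < 1 →
    ∀ (M : (Fin d → ℝ) →ₗ[ℝ] (Fin d → ℝ)), MeshAtLeast (√δ) M → ∀ (w₀ : Fin d → ℝ)
    (ι : Type) [Fintype ι] (a e : ι → EuclideanSpace ℝ (Fin (d + 1))), (∀ i, ‖e i‖ = 1) →
      (∀ i j, i ≠ j → δ ≤ ‖e i - e j‖) → (∀ i, NearNet δ M w₀ (e i)) →
      eLpNorm (fun x => ∑ i, (tube δ (a i) (e i)).indicator (fun _ => (1 : ℝ)) x)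
          (ENNReal.ofReal q) volume ≤
        ENNReal.ofReal (C * δ ^ ((d : ℝ) / q) *
          (Fintype.card ι : ℝ) ^ (1 - 1 / (q * (d : ℝ)))) := by
  obtain ⟨C, hC, h⟩ := Pool.Agent.H668.Lat.dual_all d hd
  have hd0 : (0 : ℝ) < d := by exact_mod_cast hd
  refine ⟨C, by linarith, ?_⟩
  intro q hq δ hδ hδ1 M hM w₀ ι _ a e he hsep hnear
  have hq1 : 1 ≤ q := by
    have : 0 < 1 / (d : ℝ) := by positivity
    linarith
  have hq0 : 0 < q := by linarith
  have key := h q hq δ hδ hδ1 M hM w₀ ι a e he hsep hnear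
  rw [eLpNorm_eq_lintegral_rpow_enorm_toReal (by
    rw [ne_eq, ENNReal.ofReal_eq_zero, not_le]; exact hq0) ENNReal.ofReal_ne_top,
    ENNReal.toReal_ofReal hq0.le]
  have e3 : ∀ x, ‖∑ i, (tube δ (a i) (e i)).indicator (fun _ => (1 : ℝ)) x‖ₑ =
      ∑ i, (Pool.Agent.W46.KK.tube δ (a i) (e i)).indicator (fun _ => (1 : ENNReal)) x := by
    intro x
    rw [Real.enorm_of_nonneg (Finset.sum_nonneg fun i _ =>
      Set.indicator_nonneg (fun _ _ => zero_le_one) _),
      ENNReal.ofReal_sum_of_nonneg fun i _ => Set.indicator_nonneg (fun _ _ => zero_le_one) _]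
    refine Finset.sum_congr rfl fun i _ => ?_
    by_cases hx : x ∈ tube δ (a i) (e i)
    · have hx' : x ∈ Pool.Agent.W46.KK.tube δ (a i) (e i) := hx
      rw [Set.indicator_of_mem hx, Set.indicator_of_mem hx', ENNReal.ofReal_one]
    · have hx' : x ∉ Pool.Agent.W46.KK.tube δ (a i) (e i) := hx
      rw [Set.indicator_of_notMem hx, Set.indicator_of_notMem hx', ENNReal.ofReal_zero]
  simp only [e3]
  refine (ENNReal.rpow_le_rpow key (by positivity)).trans ?_
  rw [ENNReal.ofReal_rpow_of_nonneg (by positivity) (by positivity)]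
  apply ENNReal.ofReal_le_ofReal
  rw [Real.mul_rpow (by positivity) (by positivity), Real.mul_rpow (by positivity) (by positivity),
    ← Real.rpow_mul hδ.le, ← Real.rpow_mul (by positivity)]
  have e4 : (d : ℝ) * (1 / q) = d / q := by ring
  have e5 : (q - 1 / (d : ℝ)) * (1 / q) = 1 - 1 / (q * d) := by field_simp
  rw [e4, e5]
  have h1 : C ^ (1 / q) ≤ C := by
    calc C ^ (1 / q) ≤ C ^ (1 : ℝ) := Real.rpow_le_rpow_of_exponent_le hC (by
          rw [div_le_one hq0]; exact hq1)
      _ = C := Real.rpow_one C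
  gcongr

end Pool.Agent.Results.MP_850839_an.LatticeNets
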