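import Mathlib
import Pool.Agent.Helper634ord.Tub14

/-!
# MP_850839: unions of shaded tubes inside sets closed under an order operation

An order operation is a map `f : ℝ ^ k → ℝ` which commutes with all nondecreasing maps of the real
line (minimum, maximum, median, every lattice polynomial).  A set is closed under `f` within distance
`ρ` if `f`, applied to the coordinates (in some orthonormal basis) of `k` points of the set at mutual
distances at most `ρ`, gives a point of the set.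

Let `𝒯` be a family of `δ`-tubes with `δ`-separated orientations and centres in the ball of radius `R`,
and let `Y` be a shading: `Y T` is a measurable subset of the tube `T` and
`|T ∖ Y T| < |T| / (512 n ^ 2 2 ^ n)` (for example `Y T = T`).

(A) For every set `G` that contains all the sets `Y T`, the coordinatewise minima of `n` points of `G`
at mutual distances at most `ρ` have volume at least `c (ρ ^ n δ ^ (n - 1) #𝒯) ^ C`; the same for the
maxima.

(B) If every set `Y T` is contained in one of `N` sets, each closed within distance `ρ` under some order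
operation that is not a projection, then the union of these sets has volume at least
`c (ρ ^ n δ ^ (n - 1) #𝒯 / N) ^ C`.

Here `c > 0` and `C` depend on `n` and `R` only, in particular not on `δ`.

Proof: for a set of vectors of large measure one finds segments, nearly filled by the shadings, with
these vectors; polynomial pigeonholing finds `n + 1` segments whose positions and directions are close
on `n` different scales and in general position, and the exceptional sets of times are avoided; at a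
suitable time the crossing times of the coordinates are separated, and one can choose a point on each
of the `n` segments which is the smallest in one coordinate.
-/

set_option autoImplicit false

open MeasureTheory Set Metric
open scoped ENNReal

namespace Pool.Agent.Results.MP_850839_an.OrderClosedTubes

open Pool.Agent.Helper634ord (OrderOperation IsProjection BoxLCS)
open Pool.Agent.Helper634ord.Tub (crd)

/-- Euclidean space `ℝ^n`. -/
abbrev E (n : ℕ) : Type := EuclideanSpace ℝ (Fin n)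

/-- The closed cylinder of length `1` and radius `δ` with centre `a` and axis in direction `e`. -/
def tube {n : ℕ} (δ : ℝ) (a e : E n) : Set (E n) :=
  {y | |inner ℝ (y - a) e| ≤ 1 / 2 ∧ ‖(y - a) - (inner ℝ (y - a) e : ℝ) • e‖ ≤ δ}

/-- A finite family of `δ`-tubes, each given by its centre `p.1` and its orientation `p.2`, with
`δ`-separated orientations and with centres in the ball of radius `R`. -/
structure TubeFamily {n : ℕ} (δ R : ℝ) (𝒯 : Finset (E n × E n)) : Prop where
  centre : ∀ p ∈ 𝒯, ‖p.1‖ ≤ R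
  unit : ∀ p ∈ 𝒯, ‖p.2‖ = 1
  separated : ∀ p ∈ 𝒯, ∀ q ∈ 𝒯, p ≠ q → δ ≤ ‖p.2 - q.2‖

/-- A shading of the family: `Y p` is a measurable subset of the tube `p`, and the rest of the tube has
volume less than `1 / (512 n ^ 2 2 ^ n)` times the volume of the tube. -/
structure Shading {n : ℕ} (δ : ℝ) (𝒯 : Finset (E n × E n)) (Y : E n × E n → Set (E n)) : Prop where
  measurable : ∀ p ∈ 𝒯, MeasurableSet (Y p)
  subset : ∀ p ∈ 𝒯, Y p ⊆ tube δ p.1 p.2
  full : ∀ p ∈ 𝒯, volume (tube δ p.1 p.2 \ Y p) <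
    ENNReal.ofReal (1 / (512 * (n : ℝ) ^ 2 * 2 ^ n)) * volume (tube δ p.1 p.2)

/-- The coordinatewise minima of `n` points of `G` at mutual distances at most `ρ`, in the coordinates
of the orthonormal basis `b`. -/
def Minima {n : ℕ} (ρ : ℝ) (b : OrthonormalBasis (Fin n) ℝ (E n)) (G : Set (E n)) : Set (E n) :=
  {x | ∃ p : Fin n → E n, (∀ c, p c ∈ G) ∧ (∀ c c', dist (p c) (p c') ≤ ρ) ∧
    ∀ i, IsLeast (range fun c => b.repr (p c) i) (b.repr x i)}

/-- The coordinatewise maxima of `n` points of `G` at mutual distances at most `ρ`, in the coordinates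
of the orthonormal basis `b`. -/
def Maxima {n : ℕ} (ρ : ℝ) (b : OrthonormalBasis (Fin n) ℝ (E n)) (G : Set (E n)) : Set (E n) :=
  {x | ∃ p : Fin n → E n, (∀ c, p c ∈ G) ∧ (∀ c c', dist (p c) (p c') ≤ ρ) ∧
    ∀ i, IsGreatest (range fun c => b.repr (p c) i) (b.repr x i)}

/-- The set `G` is closed under `f`, applied to points of `G` at mutual distances at most `ρ` (to the
coordinates with respect to the orthonormal basis `b`). -/
def ClosedWithin {n k : ℕ} (ρ : ℝ) (b : OrthonormalBasis (Fin n) ℝ (E n)) (G : Set (E n))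
    (f : (Fin k → ℝ) → ℝ) : Prop :=
  ∀ c : Fin k → E n, (∀ j, c j ∈ G) → (∀ i j, dist (c i) (c j) ≤ ρ) →
    ∃ x ∈ G, ∀ i, b.repr x i = f (fun j => b.repr (c j) i)

/-- `G` is closed, in some orthonormal basis and within distance `ρ`, under some order operation which
is not a projection. -/
def OrderClosed {n : ℕ} (ρ : ℝ) (G : Set (E n)) : Prop :=
  ∃ (k : ℕ) (f : (Fin k → ℝ) → ℝ), OrderOperation f ∧ ¬ IsProjection f ∧
    ∃ b : OrthonormalBasis (Fin n) ℝ (E n), ClosedWithin ρ b G f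

/-- cubes of side `ℓ` with `√n ℓ ≤ ρ` -/
theorem boxLCS {n : ℕ} {ρ ℓ : ℝ} (hℓ : 0 ≤ ℓ) (hρ : Real.sqrt n * ℓ ≤ ρ) {k : ℕ}
    {b : OrthonormalBasis (Fin n) ℝ (E n)} {G : Set (E n)} {f : (Fin k → ℝ) → ℝ}
    (hf : OrderOperation f) (hp : ¬ IsProjection f) (h : ClosedWithin ρ b G f) :
    BoxLCS (crd b '' G) ℓ := by
  intro a
  apply Pool.Agent.Helper634ord.closed_cases hf hp
  intro c hc
  choose g hg hgc using fun j => (hc j).1
  have hrepr : ∀ j i, b.repr (g j) i = c j i := fun j i => congrFun (hgc j) i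
  obtain ⟨x, hx, hxf⟩ := h g hg (by
    intro i j
    rw [← b.repr.dist_map]
    refine le_trans (Pool.Agent.Helper634ord.dist_cube hℓ ?_) hρ
    intro m
    rw [hrepr, hrepr]
    have h1 := (hc i).2 m
    have h2 := (hc j).2 m
    rw [abs_le]
    constructor <;> linarith [h1.1, h1.2, h2.1, h2.2])
  refine ⟨⟨x, hx, ?_⟩, ?_⟩
  · funext i
    show b.repr x i = f (fun j => c j i)
    rw [hxf i]
    congr 1
    funext j
    exact hrepr j i
  · intro i
    obtain ⟨j, hj⟩ := Pool.Agent.Helper634ord.mem_range hf (fun j => c j i)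
    show a i ≤ f (fun j => c j i) ∧ f (fun j => c j i) ≤ a i + ℓ
    rw [hj]
    exact (hc j).2 i

/-- one set and one basis -/
theorem single {n : ℕ} (hn : 1 ≤ n) {R : ℝ} (hR : 1 ≤ R) :
    ∃ c : ℝ, 0 < c ∧ ∃ C : ℕ, ∀ ρ δ : ℝ, 0 < ρ → ρ ≤ 1 → 0 < δ → δ ≤ 1 →
      ∀ (𝒯 : Finset (E n × E n)) (Y : E n × E n → Set (E n)), 𝒯.Nonempty → TubeFamily δ R 𝒯 →
        Shading δ 𝒯 Y → ∀ (b : OrthonormalBasis (Fin n) ℝ (E n)) (G : Set (E n)),
        (∀ p ∈ 𝒯, Y p ⊆ G) →
          ENNReal.ofReal (c * (ρ ^ n * δ ^ (n - 1) * 𝒯.card) ^ C) ≤ volume (Minima ρ b G) ∧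
          ENNReal.ofReal (c * (ρ ^ n * δ ^ (n - 1) * 𝒯.card) ^ C) ≤ volume (Maxima ρ b G) ∧
          ∀ (k : ℕ) (f : (Fin k → ℝ) → ℝ), OrderOperation f → ¬ IsProjection f →
            ClosedWithin ρ b G f →
              ENNReal.ofReal (c * (ρ ^ n * δ ^ (n - 1) * 𝒯.card) ^ C) ≤ volume G := by
  classical
  obtain ⟨m, rfl⟩ : ∃ m, n = m + 1 := ⟨n - 1, by omega⟩
  obtain ⟨c, hc, C, hC⟩ := Pool.Agent.Helper634ord.Tub.mainR hn (R := R + 2) (by linarith)
  set κ₀ : ℝ := 1 / (2 * (8 * ((m : ℝ) + 1)) ^ m) with hκ₀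
  have hκ₀0 : 0 < κ₀ := by positivity
  set κ : ℝ := κ₀ * (1 / (8 * ((m : ℝ) + 1))) ^ (m + 1) with hκ
  have hκ0 : 0 < κ := by positivity
  refine ⟨(c * κ ^ C) ^ (m + 1), by positivity, C * (m + 1), ?_⟩
  intro ρ δ hρ hρ1 hδ hδ1 𝒯 Y hne h𝒯 hY b G hG
  set lam : ℝ := ρ / (8 * ((m : ℝ) + 1)) with hlam
  have hm1 : (1 : ℝ) ≤ (m : ℝ) + 1 := by
    have : (0 : ℝ) ≤ m := by positivity
    linarith
  have hl : 0 < lam := by positivity
  have hlam8 : 8 * lam * ((m : ℝ) + 1) = ρ := by
    rw [hlam]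
    field_simp
  have hlam4 : lam ≤ 1 / 8 := by nlinarith
  have hsqrt : Real.sqrt ((m + 1 : ℕ) : ℝ) * (4 * (2 * lam)) ≤ ρ := by
    have h1 : Real.sqrt ((m + 1 : ℕ) : ℝ) ≤ (m : ℝ) + 1 := by
      rw [Real.sqrt_le_left (by positivity)]
      push_cast
      nlinarith
    have h2 : 0 ≤ 4 * (2 * lam) := by positivity
    calc Real.sqrt ((m + 1 : ℕ) : ℝ) * (4 * (2 * lam)) ≤ ((m : ℝ) + 1) * (4 * (2 * lam)) :=
          mul_le_mul_of_nonneg_right h1 h2
      _ = ρ := by rw [← hlam8]; ring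
  choose! V hVm hVv hV using fun (p : E (m + 1) × E (m + 1)) (hp : p ∈ 𝒯) =>
    Pool.Agent.Helper634ord.Tub.dir_set m (h𝒯.unit p hp) hl hδ
  have hpt : ∀ (y w : E (m + 1)) (t : ℝ), Pool.Agent.Helper634ord.Kak.pt (crd b y) (crd b w) t =
      crd b (y + t • w) := by
    intro y w t
    funext i
    simp only [crd, Pool.Agent.Helper634ord.Kak.pt, map_add, map_smul, PiLp.add_apply,
      PiLp.smul_apply, smul_eq_mul]
  set P : Set ((Fin (m + 1) → ℝ) × (Fin (m + 1) → ℝ)) := {q | ∃ p ∈ 𝒯, ∃ w ∈ V p,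
    ∃ y : E (m + 1), ‖y‖ ≤ R + 2 ∧ volume (Set.Icc (0 : ℝ) 1 \ {t : ℝ | y + t • w ∈ G}) ≤
      ENNReal.ofReal (1 / (512 * ((m + 1 : ℕ) : ℝ) ^ 2)) ∧ q = (crd b y, crd b w)} with hP
  have hwn : ∀ p ∈ 𝒯, ∀ w ∈ V p, ‖w‖ ≤ 2 * lam := by
    intro p hp w hw
    obtain ⟨h1, h2, h3⟩ := hV p hp w hw
    have h4 : w = (inner ℝ w p.2 : ℝ) • p.2 + (w - (inner ℝ w p.2 : ℝ) • p.2) := by abel
    have h5 := norm_add_le ((inner ℝ w p.2 : ℝ) • p.2) (w - (inner ℝ w p.2 : ℝ) • p.2)
    rw [← h4, norm_smul, h𝒯.unit p hp, mul_one, Real.norm_of_nonneg (by linarith)] at h5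
    have h6 : δ * lam ≤ 1 * lam := mul_le_mul_of_nonneg_right hδ1 hl.le
    linarith
  have hPb : ∀ q ∈ P, (∀ i, |q.1 i| ≤ R + 2) ∧ ∀ i, |q.2 i| ≤ 2 * lam := by
    rintro q ⟨p, hp, w, hw, y, hy, hyv, rfl⟩
    exact ⟨fun i => (Pool.Agent.Helper634ord.Tub.crd_abs_le b y i).trans hy,
      fun i => (Pool.Agent.Helper634ord.Tub.crd_abs_le b w i).trans (hwn p hp w hw)⟩
  have hFv : ∀ q ∈ P, volume (Set.Icc 0 1 \
      {t : ℝ | Pool.Agent.Helper634ord.Kak.pt q.1 q.2 t ∈ crd b '' G}) ≤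
      ENNReal.ofReal (1 / (512 * ((m + 1 : ℕ) : ℝ) ^ 2)) := by
    rintro q ⟨p, hp, w, hw, y, hy, hyv, rfl⟩
    refine (measure_mono ?_).trans hyv
    rintro t ⟨ht, htn⟩
    refine ⟨ht, fun h => htn ?_⟩
    show Pool.Agent.Helper634ord.Kak.pt (crd b y) (crd b w) t ∈ crd b '' G
    rw [hpt]
    exact ⟨_, h, rfl⟩
  set x : ℝ := κ₀ * (lam ^ (m + 1) * δ ^ m * 𝒯.card) with hx
  have hcard : (0 : ℝ) < 𝒯.card := by exact_mod_cast Finset.card_pos.2 hne
  have hx0 : 0 < x := by positivity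
  have hdirs : ENNReal.ofReal x ≤ volume (Pool.Agent.Helper634ord.Tub.dirs P) := by
    have h1 : volume (⋃ p ∈ 𝒯, V p) = ENNReal.ofReal x := by
      rw [measure_biUnion_finset]
      · rw [Finset.sum_congr rfl (fun p hp => hVv p hp), Finset.sum_const, nsmul_eq_mul,
          ← ENNReal.ofReal_natCast, ← ENNReal.ofReal_mul (by positivity)]
        congr 1
        rw [hx, hκ₀, div_pow, mul_pow]
        field_simp
        ring
      · intro p hp q hq hpq
        rw [Function.onFun, Set.disjoint_left]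
        intro w hw hw'
        obtain ⟨h1, _, h2⟩ := hV p hp w hw
        obtain ⟨h1', _, h2'⟩ := hV q hq w hw'
        exact Pool.Agent.Helper634ord.Tub.dir_disjoint (h𝒯.unit p hp) (h𝒯.unit q hq) hδ hl
          (h𝒯.separated p hp q hq hpq) h1 h2 h1' h2'
      · exact fun p hp => hVm p hp
    have h2 : (⋃ p ∈ 𝒯, V p) ⊆ crd b ⁻¹' (Pool.Agent.Helper634ord.Tub.dirs P) := by
      intro w hw
      rw [mem_iUnion₂] at hw
      obtain ⟨p, hp, hw⟩ := hw
      obtain ⟨h1, h2, h3⟩ := hV p hp w hw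
      have h4 : δ * lam ≤ δ * 1 := mul_le_mul_of_nonneg_left (by linarith) hδ.le
      obtain ⟨y, hy, hyv⟩ := Pool.Agent.Helper634ord.Tub.seg_half hδ1 (a := p.1) (h𝒯.unit p hp)
        (w := w) (by linarith) (by linarith) (by linarith) (T := tube δ p.1 p.2) (Y := Y p) rfl
        (hY.measurable p hp) (ε := 1 / (512 * ((m + 1 : ℕ) : ℝ) ^ 2)) (by positivity) (by
          refine (hY.full p hp).trans_le (le_of_eq ?_)
          congr 2
          rw [div_pow, one_pow]
          field_simp)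
      refine ⟨crd b y, p, hp, w, hw, y, ?_, ?_, rfl⟩
      · calc ‖y‖ = ‖(y - p.1) + p.1‖ := by rw [sub_add_cancel]
          _ ≤ ‖y - p.1‖ + ‖p.1‖ := norm_add_le _ _
          _ ≤ R + 2 := by linarith [h𝒯.centre p hp]
      · refine (measure_mono ?_).trans hyv
        rintro t ⟨ht, htn⟩
        exact ⟨ht, fun h => htn (hG p hp h)⟩
    rw [← h1, ← Pool.Agent.Helper634ord.Tub.vol_crd b]
    exact measure_mono h2
  have hx1 : x ≤ 1 := by
    have h1 : Pool.Agent.Helper634ord.Tub.dirs P ⊆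
        Set.Icc (fun _ => -(1 / 2) : Fin (m + 1) → ℝ) (fun _ => 1 / 2) := by
      rintro w ⟨a, ha⟩
      have h2 := (hPb _ ha).2
      simp only at h2
      constructor
      · intro i
        have := (abs_le.1 (h2 i)).1
        show -(1 / 2) ≤ w i
        linarith
      · intro i
        have := (abs_le.1 (h2 i)).2
        show w i ≤ 1 / 2
        linarith
    have h2 := hdirs.trans (measure_mono h1)
    rw [Real.volume_Icc_pi] at h2
    norm_num at h2
    exact h2
  obtain ⟨ε, hε, hε0, hmain⟩ := hC (2 * lam) (by positivity) (by linarith) x hx0 hx1 P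
    (fun q => {t : ℝ | Pool.Agent.Helper634ord.Kak.pt q.1 q.2 t ∈ crd b '' G}) hPb hFv hdirs
  obtain ⟨hmin, hmax, hclo⟩ := hmain (crd b '' G) (fun p _ t ht _ _ => ht)
  have hbound : ENNReal.ofReal ((c * κ ^ C) ^ (m + 1) *
      (ρ ^ (m + 1) * δ ^ (m + 1 - 1) * 𝒯.card) ^ (C * (m + 1))) ≤ ENNReal.ofReal (ε ^ (m + 1)) := by
    apply ENNReal.ofReal_le_ofReal
    have h1 : (c * κ ^ C) ^ (m + 1) * (ρ ^ (m + 1) * δ ^ (m + 1 - 1) * 𝒯.card) ^ (C * (m + 1)) =
        (c * x ^ C) ^ (m + 1) := by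
      have h2 : x = κ * (ρ ^ (m + 1) * δ ^ m * 𝒯.card) := by
        rw [hx, hκ, hlam, div_pow, div_pow, one_pow]
        ring
      rw [h2, Nat.add_sub_cancel, pow_mul, ← mul_pow]
      congr 1
      rw [mul_assoc c, ← mul_pow]
    rw [h1]
    exact pow_le_pow_left₀ (by positivity) hε (m + 1)
  have hdist : ∀ (q : Fin (m + 1) → E (m + 1)) (p : Fin (m + 1) → Fin (m + 1) → ℝ),
      (∀ c, crd b (q c) = p c) → (∀ c c' i, |p c i - p c' i| ≤ 4 * (2 * lam)) →
      ∀ c c', dist (q c) (q c') ≤ ρ := by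
    intro q p hqp hp c c'
    rw [← b.repr.dist_map]
    refine le_trans (Pool.Agent.Helper634ord.dist_cube (by positivity) (fun i => ?_)) hsqrt
    have h1 : ∀ c, b.repr (q c) i = p c i := fun c => congrFun (hqp c) i
    rw [h1, h1]
    exact hp c c' i
  refine ⟨?_, ?_, ?_⟩
  · refine hbound.trans (hmin.trans ?_)
    rw [← Pool.Agent.Helper634ord.Tub.vol_crd b]
    apply measure_mono
    rintro y ⟨p, hp, hpd, hpm⟩
    choose q hq hqp using hp
    refine ⟨q, hq, hdist q p hqp hpd, fun i => ?_⟩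
    have h1 : ∀ c, b.repr (q c) i = p c i := fun c => congrFun (hqp c) i
    constructor
    · exact ⟨i, by
        show b.repr (q i) i = crd b y i
        rw [h1, (hpm i).1]⟩
    · rintro _ ⟨c, rfl⟩
      show crd b y i ≤ b.repr (q c) i
      rw [h1]
      exact (hpm i).2 c
  · refine hbound.trans (hmax.trans ?_)
    rw [← Pool.Agent.Helper634ord.Tub.vol_crd b]
    apply measure_mono
    rintro y ⟨p, hp, hpd, hpm⟩
    choose q hq hqp using hp
    refine ⟨q, hq, hdist q p hqp hpd, fun i => ?_⟩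
    have h1 : ∀ c, b.repr (q c) i = p c i := fun c => congrFun (hqp c) i
    constructor
    · exact ⟨i, by
        show b.repr (q i) i = crd b y i
        rw [h1, (hpm i).1]⟩
    · rintro _ ⟨c, rfl⟩
      show b.repr (q c) i ≤ crd b y i
      rw [h1]
      exact (hpm i).2 c
  · intro k f hf hfp hcl
    refine hbound.trans ((hclo (boxLCS (by positivity) hsqrt hf hfp hcl)).trans ?_)
    rw [← Pool.Agent.Helper634ord.Tub.vol_crd b,
      preimage_image_eq _ (Pool.Agent.Helper634ord.Tub.crd_injective b)]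

/-- **Shaded tubes in sets closed under an order operation.** For all `n ≥ 1` and `R ≥ 1` there are
`c > 0` and `C` such that the following holds for all `0 < ρ ≤ 1`, all `0 < δ ≤ 1`, all nonempty
families `𝒯` of `δ`-tubes in `ℝ ^ n` with `δ`-separated orientations and centres in the ball of radius
`R`, and all shadings `Y` of `𝒯` (`Y T` is a measurable subset of `T` and
`|T ∖ Y T| < |T| / (512 n ^ 2 2 ^ n)`, for example `Y T = T`).

(A) For every set `G` that contains all the sets `Y T` and every orthonormal basis, the coordinatewise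
minima of `n` points of `G` at mutual distances at most `ρ` form a set of volume at least
`c (ρ ^ n δ ^ (n - 1) #𝒯) ^ C`, and so do the maxima.

(B) If each set `Y T` is contained in one of the sets `G 0, …, G (N - 1)`, each of which is closed
within distance `ρ` under some order operation that is not a projection (in some orthonormal basis),
then the union of these sets has volume at least `c (ρ ^ n δ ^ (n - 1) #𝒯 / N) ^ C`. -/
theorem result (n : ℕ) (hn : 1 ≤ n) (R : ℝ) (hR : 1 ≤ R) :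
    ∃ c : ℝ, 0 < c ∧ ∃ C : ℕ, ∀ ρ δ : ℝ, 0 < ρ → ρ ≤ 1 → 0 < δ → δ ≤ 1 →
      ∀ (𝒯 : Finset (E n × E n)) (Y : E n × E n → Set (E n)), 𝒯.Nonempty → TubeFamily δ R 𝒯 →
        Shading δ 𝒯 Y →
        (∀ (b : OrthonormalBasis (Fin n) ℝ (E n)) (G : Set (E n)),
          (∀ p ∈ 𝒯, Y p ⊆ G) →
            ENNReal.ofReal (c * (ρ ^ n * δ ^ (n - 1) * 𝒯.card) ^ C) ≤ volume (Minima ρ b G) ∧
            ENNReal.ofReal (c * (ρ ^ n * δ ^ (n - 1) * 𝒯.card) ^ C) ≤ volume (Maxima ρ b G)) ∧
        ∀ (N : ℕ) (G : Fin N → Set (E n)), (∀ j, OrderClosed ρ (G j)) →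
          (∀ p ∈ 𝒯, ∃ j, Y p ⊆ G j) →
            ENNReal.ofReal (c * (ρ ^ n * δ ^ (n - 1) * 𝒯.card / N) ^ C) ≤ volume (⋃ j, G j) := by
  classical
  obtain ⟨c, hc, C, hC⟩ := single hn hR
  refine ⟨c, hc, C, ?_⟩
  intro ρ δ hρ hρ1 hδ hδ1 𝒯 Y hne h𝒯 hY
  refine ⟨fun b G hG => ?_, ?_⟩
  · have h := hC ρ δ hρ hρ1 hδ hδ1 𝒯 Y hne h𝒯 hY b G hG
    exact ⟨h.1, h.2.1⟩
  · intro N G hcl hG
    have hN : 0 < N := by
      obtain ⟨p, hp⟩ := hne
      obtain ⟨j, _⟩ := hG p hp
      exact lt_of_le_of_lt (Nat.zero_le _) j.2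
    have hFN : Nonempty (Fin N) := ⟨⟨0, hN⟩⟩
    choose! g hg using hG
    have hN0 : (0 : ℝ) < N := by exact_mod_cast hN
    -- one of the sets contains its share of the tubes
    obtain ⟨j, hj⟩ : ∃ j, (𝒯.card : ℝ) / N ≤ ((𝒯.filter (fun p => g p = j)).card : ℝ) := by
      by_contra hcon
      push Not at hcon
      have h1 : (𝒯.card : ℝ) = ∑ j : Fin N, ((𝒯.filter (fun p => g p = j)).card : ℝ) := by
        have h2 := Finset.card_eq_sum_card_fiberwise (f := g) (s := 𝒯) (t := Finset.univ)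
          (fun p _ => Finset.mem_coe.2 (Finset.mem_univ _))
        exact_mod_cast h2
      have hne' : (Finset.univ : Finset (Fin N)).Nonempty := ⟨⟨0, hN⟩, Finset.mem_univ _⟩
      have h3 : ∑ j : Fin N, ((𝒯.filter (fun p => g p = j)).card : ℝ) <
          ∑ _j : Fin N, (𝒯.card : ℝ) / N := Finset.sum_lt_sum_of_nonempty hne' (fun j _ => hcon j)
      rw [← h1, Finset.sum_const, Finset.card_univ, Fintype.card_fin, nsmul_eq_mul] at h3
      have h4 : (N : ℝ) * ((𝒯.card : ℝ) / N) = 𝒯.card := by field_simp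
      rw [h4] at h3
      exact lt_irrefl _ h3
    set 𝒯' := 𝒯.filter (fun p => g p = j) with h𝒯'
    have hcard : (0 : ℝ) < 𝒯.card := by exact_mod_cast Finset.card_pos.2 hne
    have hne' : 𝒯'.Nonempty := by
      rw [← Finset.card_pos]
      have h1 : (0 : ℝ) < (𝒯'.card : ℝ) := lt_of_lt_of_le (by positivity) hj
      exact_mod_cast h1
    have hfam : TubeFamily δ R 𝒯' :=
      ⟨fun p hp => h𝒯.centre p (Finset.mem_filter.1 hp).1,
        fun p hp => h𝒯.unit p (Finset.mem_filter.1 hp).1,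
        fun p hp q hq => h𝒯.separated p (Finset.mem_filter.1 hp).1 q (Finset.mem_filter.1 hq).1⟩
    have hshad : Shading δ 𝒯' Y :=
      ⟨fun p hp => hY.measurable p (Finset.mem_filter.1 hp).1,
        fun p hp => hY.subset p (Finset.mem_filter.1 hp).1,
        fun p hp => hY.full p (Finset.mem_filter.1 hp).1⟩
    obtain ⟨k, f, hf, hfp, b, hb⟩ := hcl j
    have h5 := (hC ρ δ hρ hρ1 hδ hδ1 𝒯' Y hne' hfam hshad b (G j) (by
      intro p hp
      have h6 := hg p (Finset.mem_filter.1 hp).1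
      rwa [(Finset.mem_filter.1 hp).2] at h6)).2.2 k f hf hfp hb
    refine le_trans (ENNReal.ofReal_le_ofReal ?_) (h5.trans (measure_mono (subset_iUnion G j)))
    apply mul_le_mul_of_nonneg_left _ hc.le
    apply pow_le_pow_left₀ (by positivity)
    rw [mul_div_assoc]
    exact mul_le_mul_of_nonneg_left hj (by positivity)

end Pool.Agent.Results.MP_850839_an.OrderClosedTubes
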