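import Pool.Agent.Helper184.TP.Stmt

/-!
# MP_850839: the typical continuous choice of the centres of the tubes is the worst choice

A family of `δ`-tubes with `δ`-separated orientations is given by a finite `δ`-separated set `Ω` of
unit vectors and a choice of centres: the tube in direction `e` has centre `a e`.  The problem asks
for a constant that does not depend on the choice `a : S^{n-1} → ℝ^n`.

We prove: for typical (all but a meagre set of) CONTINUOUS functions `a : S^{n-1} → ℝ^n`, if the
inequality of the problem with exponent `q > n/(n-1)` holds for the families with centres `a e`,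
directions in SOME nonempty open set of directions and SOME constant (depending on `a`), then it
holds, with one constant, for all families of tubes.  The same is true for the inequality with a
loss `δ^(-τ)`, also at the endpoint `q = n/(n-1)`.  Hence the conjecture is equivalent to a
qualitative statement about a single, typical, continuous function.
-/

open MeasureTheory Set Metric Filter
open scoped ENNReal NNReal Topology

namespace Pool.Agent.Results.MP_850839_an.TypicalCentres

/-- The space `ℝ^n`. -/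
abbrev Rn (n : ℕ) : Type := EuclideanSpace ℝ (Fin n)

/-- The unit sphere. -/
abbrev Sph (n : ℕ) : Type := sphere (0 : Rn n) 1

/-- The `δ`-tube with centre `a` and orientation `e`: the closed cylinder of length `1` and radius
`δ` with centre `a` and axis direction `e`. -/
def tube {n : ℕ} (δ : ℝ) (a e : Rn n) : Set (Rn n) :=
  {y | |inner ℝ (y - a) e| ≤ 1 / 2 ∧ ‖(y - a) - (inner ℝ (y - a) e : ℝ) • e‖ ≤ δ}

/-- The number of the `δ`-tubes with orientations `e ∈ Ω` and centres `a e` that contain `x`. -/
noncomputable def mult {n : ℕ} (δ : ℝ) (Ω : Finset (Sph n)) (a : Sph n → Rn n) (x : Rn n) : ℝ≥0∞ :=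
  ∑ e ∈ Ω, (tube δ (a e) e.1).indicator (fun _ => 1) x

/-- The `L^q` norm of the sum of the indicator functions of these tubes. -/
noncomputable def size {n : ℕ} (q δ : ℝ) (Ω : Finset (Sph n)) (a : Sph n → Rn n) : ℝ≥0∞ :=
  (∫⁻ x, mult δ Ω a x ^ q) ^ (1 / q)

/-- The orientations in `Ω` are `δ`-separated. -/
def Separated {n : ℕ} (δ : ℝ) (Ω : Finset (Sph n)) : Prop :=
  ∀ e ∈ Ω, ∀ e' ∈ Ω, e ≠ e' → δ ≤ dist e e'

/-- The inequality `‖Σ_T 1_T‖_q ≤ C δ^(-τ) δ^((n-1)/q) (#T)^(1-1/(q(n-1)))` for all `0 < δ < 1` and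
all families with centres `a e` and `δ`-separated orientations `e` in `U`. -/
def Bound (n : ℕ) (U : Set (Sph n)) (q τ C : ℝ) (a : Sph n → Rn n) : Prop :=
  ∀ δ : ℝ, 0 < δ → δ < 1 → ∀ Ω : Finset (Sph n), (Ω : Set (Sph n)) ⊆ U → Separated δ Ω →
    size q δ Ω a ≤
      ENNReal.ofReal (C * δ ^ (((n : ℝ) - 1) / q - τ) * (Ω.card : ℝ) ^ (1 - 1 / (q * ((n : ℝ) - 1))))

/-- The inequality for one choice of centres, with some constant. -/
def Holds (n : ℕ) (U : Set (Sph n)) (q τ : ℝ) (a : Sph n → Rn n) : Prop :=
  ∃ C : ℝ, Bound n U q τ C a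

/-- The inequality for all families of tubes, with one constant. -/
def HoldsForAll (n : ℕ) (q τ : ℝ) : Prop :=
  ∃ C : ℝ, ∀ b : Sph n → Rn n, Bound n univ q τ C b

/-- `P` holds for typical continuous functions `a : S^{n-1} → ℝ^n` (uniform convergence). -/
def Typical (n : ℕ) (P : (Sph n → Rn n) → Prop) : Prop :=
  ∀ᶠ a : C(Sph n, Rn n) in residual _, P a

/-- **The typical continuous choice of centres is the worst one.** -/
theorem result (n : ℕ) (hn : 2 ≤ n) :
    Typical n (fun a => ∀ U : Set (Sph n), IsOpen U → U.Nonempty →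
      ∀ q : ℝ, (n : ℝ) / ((n : ℝ) - 1) < q → Holds n U q 0 a → HoldsForAll n q 0) ∧
    (∀ q τ : ℝ, (n : ℝ) / ((n : ℝ) - 1) ≤ q → Typical n (fun a => ∀ U : Set (Sph n), IsOpen U →
      U.Nonempty → Holds n U q τ a → HoldsForAll n q τ)) ∧
    ((∀ q : ℝ, (n : ℝ) / ((n : ℝ) - 1) < q → HoldsForAll n q 0) ↔
      ¬ Typical n (fun a => ¬ ∀ q : ℝ, (n : ℝ) / ((n : ℝ) - 1) < q → Holds n univ q 0 a)) := by
  have h1 : Typical n (fun a => ∀ U : Set (Sph n), IsOpen U → U.Nonempty →
      ∀ q : ℝ, (n : ℝ) / ((n : ℝ) - 1) < q → Holds n U q 0 a → HoldsForAll n q 0) :=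
    Pool.Agent.Helper184.TP.typ_all hn
  refine ⟨h1, fun q τ hq => ?_, ?_⟩
  · by_cases hall : HoldsForAll n q τ
    · exact Eventually.of_forall fun a U _ _ _ => hall
    · have h2 := Pool.Agent.Helper184.TP.typ (n := n) (q := q) (τ := τ) hn hq hall
      unfold Typical
      filter_upwards [h2] with a ha U hU hne hh
      exact absurd hh (ha U hU hne)
  · haveI := Pool.Agent.Helper184.TP.nebot (n := n)
    constructor
    · intro h hT
      obtain ⟨a, ha⟩ := Eventually.exists (show ∀ᶠ a : C(Sph n, Rn n) in residual _,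
        ¬ ∀ q : ℝ, (n : ℝ) / ((n : ℝ) - 1) < q → Holds n univ q 0 a from hT)
      refine ha fun q hq => ?_
      obtain ⟨C, hC⟩ := h q hq
      exact ⟨C, hC a⟩
    · intro h q hq
      by_contra hcon
      have hne : (univ : Set (Sph n)).Nonempty := by
        haveI : Nontrivial (Rn n) := by
          haveI : Nonempty (Fin n) := ⟨⟨0, by omega⟩⟩
          infer_instance
        obtain ⟨x, hx⟩ := (NormedSpace.sphere_nonempty (x := (0 : Rn n)) (r := 1)).2 zero_le_one
        exact ⟨⟨x, hx⟩, trivial⟩
      refine h ?_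
      unfold Typical at h1 ⊢
      filter_upwards [h1] with a ha hall
      exact hcon (ha univ isOpen_univ hne q hq (hall q hq))

end Pool.Agent.Results.MP_850839_an.TypicalCentres
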